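import Pool.Agent.Y928.PW.Main

/-!
# Windows of digits of integers composed of given primes
-/

set_option autoImplicit false

namespace Pool.Agent.Y928.PW

open Finset Polynomial Filter
open Pool.Agent.H831R3.LC (W dig dig_abs)
open Pool.Agent.W47.JL

/-- the digit of `N` in base `q` at the place `i` (from the right) -/
def digit (q N i : ℕ) : ℕ := N / q ^ i % q

lemma dig_window (q N t L i : ℕ) (hq : 2 ≤ q) (hi : i < L) :
    dig ((N : ℝ) / ((q ^ (t + L) : ℕ) : ℝ)) q (i + 1) = (digit q N (t + (L - 1 - i)) : ℤ) := by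
  unfold dig digit
  have hq0 : (0 : ℝ) < q := by exact_mod_cast (by omega : 0 < q)
  have h1 : (N : ℝ) / ((q ^ (t + L) : ℕ) : ℝ) * (q : ℝ) ^ (i + 1) =
      (N : ℝ) / ((q ^ (t + (L - 1 - i)) : ℕ) : ℝ) := by
    have e : t + L = (t + (L - 1 - i)) + (i + 1) := by omega
    rw [e, pow_add]
    push_cast
    field_simp
  rw [h1, ← Int.natCast_floor_eq_floor (by positivity), Nat.floor_div_eq_div]
  push_cast
  rfl

/-- lower bound for the order of the relations between the digits of a window -/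
theorem windowsRel (q : ℕ) (hq : 2 ≤ q) (S : Finset ℕ) (hS : ∀ ℓ ∈ S, ℓ.Prime)
    (hSq : ∀ ℓ ∈ S, ¬ ℓ ∣ q) (k : ℕ) (ε : ℝ) (hε : 0 < ε) :
    ∃ C : ℝ, 0 < C ∧ ∀ u A : ℕ, 1 ≤ u → 1 ≤ A → (∀ ℓ : ℕ, ℓ.Prime → ℓ ∣ A → ℓ ∈ S) →
      ∀ t L m : ℕ, q ^ (t + L) ≤ q * (u * A) → ∀ w : ℕ → ℤ, (∀ i < L, |w i| ≤ q) →
      ((range L).filter (fun i => w i ≠ (digit q (u * A) (t + i) : ℤ))).card ≤ k →
      ∀ c : ℕ → ℚ, (∃ j ≤ m, c j ≠ 0) →
      (∀ i, i + m < L → ∑ j ∈ range (m + 1), c j * (w (i + j) : ℚ) = 0) →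
      (L : ℝ) ≤ (2 ^ (k + 2) - 2) * (m + 3 * (Real.log u / Real.log q)) +
        ε * (Real.log A / Real.log q) + C := by
  have hsk : (1 : ℝ) ≤ 2 ^ (k + 2) - 2 := by
    have : (2 : ℝ) ^ 2 ≤ 2 ^ (k + 2) := pow_le_pow_right₀ (by norm_num) (by omega)
    linarith
  obtain ⟨C, hC, h⟩ := words S q.primeFactors hS (fun ℓ hℓ => Nat.prime_of_mem_primeFactors hℓ)
    (by
      rw [Finset.disjoint_left]
      intro ℓ h1 h2
      exact hSq ℓ h1 (Nat.dvd_of_mem_primeFactors h2)) k (min (ε / 2) 1)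
    (lt_min (by linarith) one_pos)
  refine ⟨C + 1, by linarith, ?_⟩
  intro u A hu hA hAS t L m hwin w hw hcard c ⟨j0, hj0, hcj0⟩ hc
  have hq0 : 0 < q := by omega
  have hqR : (2 : ℝ) ≤ q := by exact_mod_cast hq
  have hlq : 0 < Real.log q := Real.log_pos (by linarith)
  have huR : (1 : ℝ) ≤ u := by exact_mod_cast hu
  have hAR : (1 : ℝ) ≤ A := by exact_mod_cast hA
  have hlu : 0 ≤ Real.log u := Real.log_nonneg huR
  have hlA : 0 ≤ Real.log A := Real.log_nonneg hAR
  have hcast : ((u : ℝ) * A) / ((q ^ (t + L) : ℕ) : ℝ) =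
      ((u * A : ℕ) : ℝ) / ((q ^ (t + L) : ℕ) : ℝ) := by push_cast; rfl
  have h1 := h u A (q ^ (t + L)) hu hA (Nat.one_le_pow _ _ hq0) hAS
    (fun ℓ hℓ hd => by
      rw [Nat.mem_primeFactors]
      exact ⟨hℓ, hℓ.dvd_of_dvd_pow hd, by omega⟩) q hq L m
    (Nat.pow_le_pow_right hq0 (by omega)) hwin (fun i => w (L - 1 - i))
    (fun i hi => hw _ (by omega))
    (by
      rw [hcast]
      refine le_trans ?_ hcard
      apply Finset.card_le_card_of_injOn (fun i => L - 1 - i)
      · intro i hi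
        rw [Finset.mem_coe, mem_filter, mem_range] at hi
        rw [Finset.mem_coe, mem_filter, mem_range]
        have h3 := hi.1
        have h2 := hi.2
        rw [dig_window q (u * A) t L i hq hi.1] at h2
        exact ⟨by show L - 1 - i < L; omega, h2⟩
      · intro i hi j hj hij
        rw [Finset.mem_coe, mem_filter, mem_range] at hi hj
        simp only at hij
        omega)
    (fun j => c (m - j)) ⟨m - j0, by omega, by
      rw [show m - (m - j0) = j0 by omega]; exact hcj0⟩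
    (fun i hi => by
      have h2 := hc (L - 1 - m - i) (by omega)
      rw [← h2, ← Finset.sum_range_reflect]
      refine sum_congr rfl fun j hj => ?_
      rw [mem_range] at hj
      rw [show m + 1 - 1 - j = m - j by omega, show m - (m - j) = j by omega,
        show L - 1 - (i + (m - j)) = L - 1 - m - i + j by omega])
  have hAB : Real.log ((A : ℝ) * ((q ^ (t + L) : ℕ) : ℝ)) ≤
      2 * Real.log A + Real.log q + Real.log u := by
    have h2 : ((q ^ (t + L) : ℕ) : ℝ) ≤ q * (u * A) := by exact_mod_cast hwin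
    have hqt : (0 : ℝ) < ((q ^ (t + L) : ℕ) : ℝ) := by positivity
    have h3 := Real.log_le_log hqt h2
    rw [Real.log_mul (by positivity) (by positivity),
      Real.log_mul (by positivity) (by positivity)] at h3
    rw [Real.log_mul (by positivity) hqt.ne']
    linarith
  have h2 : Real.log ((A : ℝ) * ((q ^ (t + L) : ℕ) : ℝ)) / Real.log q ≤
      2 * (Real.log A / Real.log q) + 1 + Real.log u / Real.log q := by
    rw [div_le_iff₀ hlq]
    have e : (2 * (Real.log A / Real.log q) + 1 + Real.log u / Real.log q) * Real.log q =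
        2 * Real.log A + Real.log q + Real.log u := by field_simp
    rw [e]; exact hAB
  have hU0 : 0 ≤ Real.log u / Real.log q := by positivity
  have hA0 : 0 ≤ Real.log A / Real.log q := by positivity
  obtain ⟨δ, hδ⟩ : ∃ δ : ℝ, δ = min (ε / 2) 1 := ⟨_, rfl⟩
  have hδ0 : 0 ≤ δ := by rw [hδ]; exact le_min (by linarith) zero_le_one
  have hδ1 : δ ≤ 1 := by rw [hδ]; exact min_le_right _ _
  have hδ2 : δ ≤ ε / 2 := by rw [hδ]; exact min_le_left _ _
  rw [← hδ] at h1
  have h3 := mul_le_mul_of_nonneg_left h2 hδ0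
  have h4 : δ * (2 * (Real.log A / Real.log q)) ≤ ε * (Real.log A / Real.log q) := by nlinarith
  have h5 : δ * (Real.log u / Real.log q) ≤ (2 ^ (k + 2) - 2) * (Real.log u / Real.log q) :=
    mul_le_mul_of_nonneg_right (by linarith) hU0
  have e1 : (2 ^ (k + 2) - 2) * ((m : ℝ) + 3 * (Real.log u / Real.log q)) =
      (2 ^ (k + 2) - 2) * ((m : ℝ) + 2 * (Real.log u / Real.log q)) +
        (2 ^ (k + 2) - 2) * (Real.log u / Real.log q) := by ring
  rw [e1]
  linarith

/-- existence of recurrences -/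
lemma exists_rec (w : ℕ → ℤ) (L l m : ℕ) (hL : L = l + 1 + m)
    (h : ∀ c : ℕ → ℚ, (∀ i, i + l < L - 1 → ∑ j ∈ range (l + 1), c j * (w (i + j) : ℚ) = 0) →
      ∀ j ≤ l, c j = 0) :
    ∃ c : ℕ → ℚ, ∀ i, i + m < L → (w (i + m) : ℚ) = ∑ j ∈ range m, c j * (w (i + j) : ℚ) := by
  set M : Matrix (Fin (l + 1)) (Fin m) ℚ := Matrix.of fun i j => (w (i + j) : ℚ) with hM
  have hli : LinearIndependent ℚ M.row := by
    rw [Fintype.linearIndependent_iff]
    intro g hg
    set c : ℕ → ℚ := fun j => if h : j < l + 1 then g ⟨j, h⟩ else 0 with hc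
    have h1 := h c (fun i hi => by
      have h2 := congrFun hg ⟨i, by omega⟩
      rw [Finset.sum_apply] at h2
      rw [Finset.sum_range]
      simp only [Pi.zero_apply] at h2
      rw [← h2]
      refine Finset.sum_congr rfl fun j _ => ?_
      rw [hc]
      simp only [j.2, dif_pos, Pi.smul_apply, smul_eq_mul, Matrix.row, hM, Matrix.of_apply]
      rw [show i + (j : ℕ) = (j : ℕ) + i by ring])
    intro j
    have h3 := h1 j (by omega)
    rw [hc] at h3
    simpa [j.2] using h3
  have hrank := hli.rank_matrix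
  rw [Fintype.card_fin] at hrank
  have hsurj : LinearMap.range M.mulVecLin = ⊤ := by
    apply Submodule.eq_top_of_finrank_eq
    rw [Module.finrank_fin_fun]
    exact hrank
  have hmem : (fun i : Fin (l + 1) => (w (i + m) : ℚ)) ∈ LinearMap.range M.mulVecLin := by
    rw [hsurj]; exact Submodule.mem_top
  obtain ⟨v, hv⟩ := hmem
  refine ⟨fun j => if h : j < m then v ⟨j, h⟩ else 0, fun i hi => ?_⟩
  have h2 := congrFun hv ⟨i, by omega⟩
  rw [Matrix.mulVecLin_apply, Matrix.mulVec, dotProduct] at h2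
  rw [Finset.sum_range]
  simp only at h2
  rw [← h2]
  refine Finset.sum_congr rfl fun j _ => ?_
  simp only [j.2, dif_pos, hM, Matrix.of_apply]
  ring

/-- `w 0, …, w (L - 1)` satisfy a linear recurrence of order `m` over `ℚ` -/
def Recurrence (w : ℕ → ℤ) (L m : ℕ) : Prop :=
  ∃ c : ℕ → ℚ, ∀ i, i + m < L → (w (i + m) : ℚ) = ∑ j ∈ range m, c j * (w (i + j) : ℚ)

/-- the linear complexity over `ℚ` of the word `w 0, …, w (L - 1)` -/
noncomputable def complexity (w : ℕ → ℤ) (L : ℕ) : ℕ := sInf {m | Recurrence w L m}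

/-- two-sided bound -/
theorem two_sided (w : ℕ → ℤ) (L : ℕ) (ε δ : ℝ) (hε : 0 < ε)
    (hδ : δ ≤ ε / 2 * L) (hL2 : 2 ≤ ε * L)
    (h : ∀ L' ≤ L, L ≤ L' + 1 → ∀ m, ∀ c : ℕ → ℚ, (∃ j ≤ m, c j ≠ 0) →
      (∀ i, i + m < L' → ∑ j ∈ range (m + 1), c j * (w (i + j) : ℚ) = 0) →
      (L' : ℝ) ≤ 2 * m + δ) :
    (1 / 2 - ε) * L < complexity w L ∧ (complexity w L : ℝ) < (1 / 2 + ε) * L := by
  have hL0 : (0 : ℝ) ≤ L := Nat.cast_nonneg L
  have hLpos : 0 < L := by
    rcases Nat.eq_zero_or_pos L with h0 | h0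
    · rw [h0] at hL2; norm_num at hL2
    · exact h0
  constructor
  · have hmem : Recurrence w L (complexity w L) :=
      Nat.sInf_mem (s := {m | Recurrence w L m}) ⟨L, fun _ => 0, fun i hi => by omega⟩
    obtain ⟨c, hc⟩ := hmem
    set m := complexity w L with hm
    have h1 := h L le_rfl (by omega) m (fun j => if j = m then -1 else c j)
      ⟨m, le_rfl, by simp⟩ (fun i hi => by
        rw [Finset.sum_range_succ]
        have h5 := hc i hi
        simp only [if_true]
        have h6 : ∑ j ∈ range m, (if j = m then (-1 : ℚ) else c j) * (w (i + j) : ℚ)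
            = ∑ j ∈ range m, c j * (w (i + j) : ℚ) := by
          refine Finset.sum_congr rfl fun j hj => ?_
          rw [mem_range] at hj
          rw [if_neg (by omega)]
        rw [h6, ← h5]
        ring)
    nlinarith
  · obtain ⟨m, hm⟩ : ∃ m : ℕ, m = ⌈(1 / 2 + ε / 2) * (L : ℝ)⌉₊ := ⟨_, rfl⟩
    have hm1 : (1 / 2 + ε / 2) * (L : ℝ) ≤ m := by rw [hm]; exact Nat.le_ceil _
    have hm2 : (m : ℝ) < (1 / 2 + ε / 2) * L + 1 := by
      rw [hm]; exact Nat.ceil_lt_add_one (by positivity)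
    have hle : complexity w L ≤ m := by
      apply Nat.sInf_le
      rcases Nat.lt_or_ge m L with hmL | hmL
      · refine exists_rec w L (L - 1 - m) m (by omega) (fun c hc => ?_)
        by_contra hcon
        push Not at hcon
        obtain ⟨j, hj, hcj⟩ := hcon
        have h1 := h (L - 1) (by omega) (by omega) (L - 1 - m) c ⟨j, hj, hcj⟩ hc
        rw [Nat.cast_sub (by omega : m ≤ L - 1), Nat.cast_sub (by omega : 1 ≤ L)] at h1
        push_cast at h1
        nlinarith
      · exact ⟨fun _ => 0, fun i hi => by omega⟩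
    have hleR : (complexity w L : ℝ) ≤ m := by exact_mod_cast hle
    nlinarith

/-- Windows of the digits: the linear complexity is half the length. -/
theorem windowsTwo (q : ℕ) (hq : 2 ≤ q) (S : Finset ℕ) (hS : ∀ ℓ ∈ S, ℓ.Prime)
    (hSq : ∀ ℓ ∈ S, ¬ ℓ ∣ q) (ε : ℝ) (hε : 0 < ε) :
    ∃ N0 : ℕ, ∀ A : ℕ, N0 ≤ A → (∀ ℓ : ℕ, ℓ.Prime → ℓ ∣ A → ℓ ∈ S) → ∀ t L : ℕ,
      ε * (Real.log A / Real.log q) ≤ L → q ^ (t + L) ≤ q * A →
      ((1 / 2 - ε) * L < complexity (fun i => (digit q A (t + i) : ℤ)) L ∧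
        (complexity (fun i => (digit q A (t + i) : ℤ)) L : ℝ) < (1 / 2 + ε) * L) ∧
      ((1 / 2 - ε) * L < complexity (fun i => (digit q A (t + (L - 1 - i)) : ℤ)) L ∧
        (complexity (fun i => (digit q A (t + (L - 1 - i)) : ℤ)) L : ℝ) < (1 / 2 + ε) * L) := by
  have hqR : (2 : ℝ) ≤ q := by exact_mod_cast hq
  have hlq : 0 < Real.log q := Real.log_pos (by linarith)
  obtain ⟨e, he⟩ : ∃ e : ℝ, e = min ε 1 := ⟨_, rfl⟩
  have he0 : 0 < e := by rw [he]; exact lt_min hε one_pos
  have he1 : e ≤ 1 := by rw [he]; exact min_le_right _ _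
  have heε : e ≤ ε := by rw [he]; exact min_le_left _ _
  obtain ⟨C, hC, h⟩ := windowsRel q hq S hS hSq 0 (e * ε / 4) (by positivity)
  obtain ⟨N0, hN0⟩ := exists_nat_ge (Real.exp (Real.log q * ((4 * C + 8) / (e * ε))))
  refine ⟨N0 + 1, fun A hA hAS t L hL hwin => ?_⟩
  have hA1 : 1 ≤ A := by omega
  have hAR : (1 : ℝ) ≤ A := by exact_mod_cast hA1
  have hlA : Real.log q * ((4 * C + 8) / (e * ε)) ≤ Real.log A := by
    rw [Real.le_log_iff_exp_le (by linarith)]
    refine hN0.trans ?_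
    exact_mod_cast (by omega : N0 ≤ A)
  have hlA' : (4 * C + 8) / (e * ε) ≤ Real.log A / Real.log q := by
    rw [le_div_iff₀ hlq]; linarith
  have hL0 : (0 : ℝ) ≤ L := Nat.cast_nonneg L
  have hbig : 4 * C + 8 ≤ e * L := by
    rw [div_le_iff₀ (by positivity)] at hlA'
    have h1 := mul_le_mul_of_nonneg_left hL he0.le
    linarith
  have hVL : e * ε / 4 * (Real.log A / Real.log q) ≤ e / 4 * L := by
    have h1 := mul_le_mul_of_nonneg_left hL (show 0 ≤ e / 4 by positivity)
    linarith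
  have key : ∀ L' ≤ L, ∀ t' : ℕ, q ^ (t' + L') ≤ q * A → ∀ m, ∀ c : ℕ → ℚ, (∃ j ≤ m, c j ≠ 0) →
      (∀ i, i + m < L' → ∑ j ∈ range (m + 1), c j * (((digit q A (t' + i + j) : ℕ) : ℤ) : ℚ) = 0) →
      (L' : ℝ) ≤ 2 * m + e / 2 * L := by
    intro L' hL' t' hw' m c hcne hc
    have h1 := h 1 A le_rfl hA1 hAS t' L' m (by rw [one_mul]; exact hw')
      (fun i => (digit q A (t' + i) : ℤ)) (fun i _ => by
        have h2 : digit q A (t' + i) < q := Nat.mod_lt _ (by omega)
        rw [abs_of_nonneg (by positivity)]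
        exact_mod_cast h2.le) (by
        rw [Finset.filter_eq_empty_iff.2 (by
          intro i _
          rw [one_mul]
          simp), Finset.card_empty]) c hcne (fun i hi => by
        have := hc i hi
        rw [← this]
        refine sum_congr rfl fun j _ => ?_
        rw [add_assoc])
    have e1 : ((2 : ℝ) ^ (0 + 2) - 2) = 2 := by norm_num
    rw [e1, Nat.cast_one, Real.log_one, zero_div] at h1
    linarith
  have hup : ∀ x : ℝ, x < (1 / 2 + e) * L → x < (1 / 2 + ε) * L := fun x hx => by nlinarith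
  have hlo : ∀ x : ℝ, (1 / 2 - e) * L < x → (1 / 2 - ε) * L < x := fun x hx => by nlinarith
  constructor
  · obtain ⟨h1, h2⟩ := two_sided (fun i => (digit q A (t + i) : ℤ)) L e (e / 2 * L) he0 le_rfl
      (by linarith) (fun L' hL' _ m c hcne hc => key L' hL' t
        ((Nat.pow_le_pow_right (by omega) (by omega)).trans hwin) m c hcne
        (fun i hi => by
          have := hc i hi
          rw [← this]
          refine sum_congr rfl fun j _ => ?_
          simp only [add_assoc]))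
    exact ⟨hlo _ h1, hup _ h2⟩
  · obtain ⟨h1, h2⟩ := two_sided (fun i => (digit q A (t + (L - 1 - i)) : ℤ)) L e (e / 2 * L) he0
      le_rfl (by linarith) (fun L' hL' hL'' m c ⟨j0, hj0, hcj0⟩ hc => key L' hL' (t + (L - L'))
        (by
          have : t + (L - L') + L' = t + L := by omega
          rw [this]; exact hwin) m (fun j => c (m - j)) ⟨m - j0, by omega, by
          rw [show m - (m - j0) = j0 by omega]; exact hcj0⟩
        (fun i hi => by
          have h2 := hc (L' - 1 - m - i) (by omega)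
          rw [← h2, ← Finset.sum_range_reflect]
          refine sum_congr rfl fun j hj => ?_
          rw [mem_range] at hj
          rw [show m + 1 - 1 - j = m - j by omega, show m - (m - j) = j by omega,
            show t + (L - L') + i + (m - j) = t + (L - 1 - (L' - 1 - m - i + j)) by omega]))
    exact ⟨hlo _ h1, hup _ h2⟩

end Pool.Agent.Y928.PW
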