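import Pool.Agent.W47.JL.Single

/-!
# Error linear complexity for numbers with exponent two up to a bounded denominator

Variant of the theorem of project JL (helper47) for one number whose rational approximations are
controlled only for denominators below a bound.
-/

set_option autoImplicit false

namespace Pool.Agent.Y928.PW

open Finset Polynomial
open Pool.Agent.H831R3.LC (W dig dig_abs)
open Pool.Agent.W47.JL

/-- exponent two for the denominators below `Q` -/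
def RM (x c0 Q : ℝ) : Prop :=
  ∀ q : ℕ, 1 ≤ q → (q : ℝ) < Q → ∀ p : ℤ, c0 ≤ (q : ℝ) * |q * x - p|

/-- inequality for a gap between two errors -/
theorem gap2 (x c0 Q : ℝ) (hc0 : 0 < c0) (hM : RM x c0 Q) (b : ℕ) (hb : 2 ≤ b) (m k L K : ℕ)
    (hL : m + k ≤ L) (hQ : (b : ℝ) ^ L * c0 ≤ Q) (s : ℕ → ℤ) (t : ℤ[X])
    (htd : t.natDegree ≤ m + k)
    (htH : ∀ i, |t.coeff i| ≤ (((m + 1 + k) * b) ^ K : ℕ))
    (htr : ∀ i < L - (m + k), W t s i = 0) (ht0 : t.eval (b : ℤ) ≠ 0)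
    (u v : ℕ) (huv : u ≤ v) (hvL : v ≤ L)
    (hdig : ∀ i, u ≤ i → i < v → s i = dig x b (i + 1)) :
    (v : ℝ) ≤ 2 * (u + M1 b m k K) + |Real.log c0| / Real.log b := by
  have hbR : (2 : ℝ) ≤ b := by exact_mod_cast hb
  have hb0 : (0 : ℝ) < b := by linarith
  have hm0 : (0 : ℝ) ≤ m := Nat.cast_nonneg m
  have hk0 : (0 : ℝ) ≤ k := Nat.cast_nonneg k
  have hu0 : (0 : ℝ) ≤ u := Nat.cast_nonneg u
  have hM1 := M1_ge b m k K hb
  obtain ⟨T, hT⟩ : ∃ T : ℝ, T = u + M1 b m k K := ⟨_, rfl⟩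
  rw [← hT]
  have hT0 : 0 ≤ T := by rw [hT]; linarith
  have hlb0 : 0 < Real.log b := Real.log_pos (by linarith)
  have hβ0 : 0 ≤ |Real.log c0| / Real.log b := by positivity
  rcases lt_or_ge v (u + (m + k)) with hv | hv
  · have h1 : (v : ℝ) ≤ T := by
      have : (v : ℝ) ≤ u + (m + k) := by exact_mod_cast hv.le
      rw [hT]; linarith
    linarith
  -- the approximation
  obtain ⟨p, hpj⟩ := Pool.Agent.W45.JL.approx x b (((m + 1 + k) * b) ^ K) (L - (m + k)) (m + k) u v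
    s t (by omega) htH htd htr hdig hv (by omega)
  obtain ⟨q, hq⟩ : ∃ q : ℕ, q = (t.eval (b : ℤ)).natAbs * b ^ u := ⟨_, rfl⟩
  have hq1 : 1 ≤ q := by
    rw [hq]
    exact Nat.mul_pos (Int.natAbs_pos.2 ht0) (by positivity)
  have hqR : (q : ℝ) = |((t.eval (b : ℤ) : ℤ) : ℝ)| * (b : ℝ) ^ u := by
    rw [hq]; push_cast
    rw [Nat.cast_natAbs, Int.cast_abs]
  have hq1R : (1 : ℝ) ≤ q := by exact_mod_cast hq1
  obtain ⟨X, hX⟩ : ∃ X : ℝ, X = ((m : ℝ) + k + 1) * (((m : ℝ) + 1 + k) * b) ^ K := ⟨_, rfl⟩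
  have hX0 : 0 < X := by rw [hX]; positivity
  have hXe : (((m + k : ℕ) : ℝ) + 1) * (((m + 1 + k) * b) ^ K : ℕ) = X := by
    rw [hX]; push_cast; ring
  have hqle : (q : ℝ) ≤ X * (b : ℝ) ^ (m + k + u) := by
    have h1 := eval_le t (((m + 1 + k) * b) ^ K) (m + k) b (by omega) htH htd
    have h2 : |((t.eval (b : ℤ) : ℤ) : ℝ)| ≤ X * (b : ℝ) ^ (m + k) := by
      rw [← hXe]
      exact_mod_cast h1
    rw [hqR, pow_add]
    calc |((t.eval (b : ℤ) : ℤ) : ℝ)| * (b : ℝ) ^ u ≤ X * (b : ℝ) ^ (m + k) * (b : ℝ) ^ u :=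
          mul_le_mul_of_nonneg_right h2 (by positivity)
      _ = _ := by ring
  have hlogq : Real.log q ≤ T * Real.log b := by
    have h1 := Real.log_le_log (by linarith) hqle
    rw [Real.log_mul hX0.ne' (by positivity), Real.log_pow] at h1
    have h2 : T * Real.log b = Real.log X + ((m + k + u : ℕ) : ℝ) * Real.log b := by
      rw [hT, M1, ← hX]
      push_cast
      field_simp
      ring
    rw [h2]
    exact h1
  rcases le_or_gt Q q with hqQ | hqQ
  · -- large denominator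
    have h1 := Real.log_le_log (by positivity) (hQ.trans hqQ)
    rw [Real.log_mul (by positivity) hc0.ne', Real.log_pow] at h1
    have h2 : -|Real.log c0| ≤ Real.log c0 := neg_abs_le _
    have h3 : (L : ℝ) * Real.log b ≤ (T + |Real.log c0| / Real.log b) * Real.log b := by
      rw [add_mul, div_mul_cancel₀ _ hlb0.ne']
      linarith
    have h4 := le_of_mul_le_mul_right h3 hlb0
    have h5 : (v : ℝ) ≤ L := by exact_mod_cast hvL
    linarith
  have hqx : ∃ p' : ℤ, |(q : ℝ) * x - p'| =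
      |((t.eval (b : ℤ) : ℤ) : ℝ) * (b : ℝ) ^ u * x - p| := by
    rcases abs_cases ((t.eval (b : ℤ) : ℤ) : ℝ) with ⟨h1, _⟩ | ⟨h1, _⟩
    · exact ⟨p, by rw [hqR, h1]⟩
    · refine ⟨-p, ?_⟩
      rw [hqR, h1, ← abs_neg]
      congr 1
      push_cast
      ring
  obtain ⟨p', hp'⟩ := hqx
  have hj := hM q hq1 hqQ p'
  rw [hp'] at hj
  rw [hXe] at hpj
  obtain ⟨w, hw⟩ : ∃ w : ℕ, v = m + k + u + w := ⟨v - (m + k) - u, by omega⟩
  rw [show v - (m + k) - u = w by omega] at hpj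
  have h2 : c0 * (b : ℝ) ^ w ≤ (q : ℝ) * X := by
    calc c0 * (b : ℝ) ^ w ≤ ((q : ℝ) *
          |((t.eval (b : ℤ) : ℤ) : ℝ) * (b : ℝ) ^ u * x - p|) * (b : ℝ) ^ w :=
          mul_le_mul_of_nonneg_right hj (by positivity)
      _ = (q : ℝ) * (|((t.eval (b : ℤ) : ℤ) : ℝ) * (b : ℝ) ^ u * x - p| * (b : ℝ) ^ w) := by ring
      _ ≤ _ := mul_le_mul_of_nonneg_left hpj (by positivity)
  have h3 := Real.log_le_log (by positivity) h2
  rw [Real.log_mul hc0.ne' (by positivity), Real.log_pow,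
    Real.log_mul (by positivity) hX0.ne'] at h3
  have h7 : -|Real.log c0| ≤ Real.log c0 := neg_abs_le _
  have h8 : M1 b m k K * Real.log b = (m + k) * Real.log b + Real.log X := by
    rw [M1, ← hX]
    field_simp
  have h9 : (v : ℝ) = m + k + u + w := by rw [hw]; push_cast; ring
  have h13 : (v : ℝ) * Real.log b ≤ (2 * T + |Real.log c0| / Real.log b) * Real.log b := by
    have e1 : T * Real.log b = u * Real.log b + ((m + k) * Real.log b + Real.log X) := by
      rw [hT, add_mul, h8]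
    rw [add_mul, div_mul_cancel₀ _ hlb0.ne', h9]
    nlinarith
  exact le_of_mul_le_mul_right h13 hlb0

/-- the general bound -/
theorem gen2 (x c0 Q : ℝ) (hc0 : 0 < c0) (hM : RM x c0 Q) (b : ℕ) (hb : 2 ≤ b) (L m k : ℕ)
    (hQ : (b : ℝ) ^ L * c0 ≤ Q) (s : ℕ → ℤ) (hs : ∀ i < L, |s i| ≤ b)
    (E : Finset ℕ) (hE : E.card ≤ k) (hdig : ∀ i < L, i ∉ E → s i = dig x b (i + 1))
    (c : ℕ → ℚ) (hc : ∀ i, i + m < L → (s (i + m) : ℚ) = ∑ l ∈ range m, c l * (s (i + l) : ℚ)) :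
    (L : ℝ) ≤ (∑ i ∈ range (k + 1), (2 : ℝ) ^ (i + 1)) *
      (m + 15 * err m + 1 + 2 * (|Real.log c0| / Real.log b)) := by
  obtain ⟨β, hβ⟩ : ∃ β : ℝ, β = |Real.log c0| / Real.log b := ⟨_, rfl⟩
  rw [← hβ]
  obtain ⟨k0, K, hk0, hK, hpar⟩ := params m
  have hbR : (2 : ℝ) ≤ b := by exact_mod_cast hb
  have hlb0 : 0 < Real.log b := Real.log_pos (by linarith)
  have hβ0 : 0 ≤ β := by rw [hβ]; positivity
  have hpar1 : M1 b m k0 K ≤ m + 15 * err m := hpar b hbR
  have hM1 := M1_ge b m k0 K hb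
  have hm0 : (0 : ℝ) ≤ m := Nat.cast_nonneg m
  have hk00 : (0 : ℝ) ≤ k0 := Nat.cast_nonneg k0
  have hM10 : 0 ≤ M1 b m k0 K := by linarith
  have herr := err_ge m
  have hsum : (1 : ℝ) ≤ ∑ i ∈ range (k + 1), (2 : ℝ) ^ (i + 1) := by
    rw [Finset.sum_range_succ']
    have : (0 : ℝ) ≤ ∑ i ∈ range k, (2 : ℝ) ^ (i + 1 + 1) :=
      Finset.sum_nonneg fun i _ => by positivity
    simp only [zero_add, pow_one]
    linarith
  have hfin0 : 0 ≤ (m : ℝ) + 15 * err m + 1 + 2 * β := by positivity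
  have htriv : (L : ℝ) ≤ M1 b m k0 K + 1 →
      (L : ℝ) ≤ (∑ i ∈ range (k + 1), (2 : ℝ) ^ (i + 1)) * (m + 15 * err m + 1 + 2 * β) := by
    intro h
    have : (m : ℝ) + 15 * err m + 1 + 2 * β ≤
        (∑ i ∈ range (k + 1), (2 : ℝ) ^ (i + 1)) * (m + 15 * err m + 1 + 2 * β) := by
      nlinarith
    linarith
  by_cases hL : m + k0 ≤ L
  swap
  · apply htriv
    have : (L : ℝ) ≤ m + k0 := by exact_mod_cast (by omega : L ≤ m + k0)
    linarith
  by_cases hbig : (m + k0 + 1) * ((m + 1 + k0) * b) ^ K * b < b ^ (L - (m + k0))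
  swap
  · apply htriv
    push Not at hbig
    have hb0 : (0 : ℝ) < b := by linarith
    have h1 : ((b : ℝ) ^ (L - (m + k0))) ≤
        ((m : ℝ) + k0 + 1) * (((m : ℝ) + 1 + k0) * b) ^ K * b := by exact_mod_cast hbig
    have h2 := Real.log_le_log (by positivity) h1
    rw [Real.log_pow, Real.log_mul (by positivity) (by positivity)] at h2
    have h3 : ((L - (m + k0) : ℕ) : ℝ) = L - (m + k0) := by
      rw [Nat.cast_sub hL]; push_cast; ring
    rw [h3] at h2
    have h4 : (L : ℝ) - (m + k0) ≤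
        Real.log (((m : ℝ) + k0 + 1) * (((m : ℝ) + 1 + k0) * b) ^ K) / Real.log b + 1 := by
      rw [← sub_le_iff_le_add, le_div_iff₀ hlb0]
      linarith
    unfold M1
    linarith
  -- truncate
  obtain ⟨a, ha⟩ : ∃ a : ℕ → ℤ, a = fun i => if i < L then s i else 0 := ⟨_, rfl⟩
  have ha1 : ∀ i, i < L → a i = s i := by
    intro i hi
    rw [ha]; simp [hi]
  have ha2 : ∀ i, |a i| ≤ b := by
    intro i
    by_cases hi : i < L
    · rw [ha1 i hi]; exact hs i hi
    · rw [ha]; simp [hi]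
  obtain ⟨t, ht0, htd, htH, htr⟩ := Pool.Agent.W928.JL.small 1 (fun _ => a) b (by omega)
    (fun _ i => ha2 i) m k0 (L - (m + k0)) L K hk0 hK
    (by omega) c (fun _ i hi => by
      rw [ha1 _ hi, hc i hi]
      refine Finset.sum_congr rfl fun l hl => ?_
      rw [mem_range] at hl
      rw [ha1 _ (by omega)])
  obtain ⟨t', htd', htH', htr', ht0'⟩ := Pool.Agent.W639.JL.desc 1 (fun _ => a) b b
    (((m + 1 + k0) * b) ^ K) (m + k0) (L - (m + k0)) hb (fun _ i => ha2 i) hbig t htd ht0 htH htr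
  have hgap := gap2 x c0 Q hc0 hM b hb m k0 L K hL hQ a t' htd' htH' (htr' 0) ht0'
  rw [← hβ] at hgap
  have hmain := rec_final 2 0 β (M1 b m k0 K) 0 (by norm_num) le_rfl hβ0 hM10 (by norm_num) le_rfl
    E L k hE (fun u v huv hvL hE' => by
      have h1 := hgap u v huv hvL (fun i h1 h2 => by
        rw [ha1 i (by omega)]
        refine hdig i (by omega) (fun hi => ?_)
        rcases hE' i hi with h | h <;> omega)
      linarith)
  refine hmain.trans (mul_le_mul_of_nonneg_left ?_ (by linarith))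
  unfold M2
  linarith

end Pool.Agent.Y928.PW
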