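import Pool.Agent.Y928.PW.Gap
import Pool.Agent.TH930.GH.Rid

/-!
# Digits of rational numbers `u A / B` with `S`-units `A`, `B`
-/

set_option autoImplicit false

namespace Pool.Agent.Y928.PW

open Finset Polynomial
open Pool.Agent.H831R3.LC (W dig dig_abs)
open Pool.Agent.W47.JL

/-- The measure given by the theorem of Ridout. -/
theorem meas_S (S T : Finset ℕ) (hS : ∀ ℓ ∈ S, ℓ.Prime) (hT : ∀ ℓ ∈ T, ℓ.Prime)
    (hST : Disjoint S T) (ε : ℝ) (hε : 0 < ε) :
    ∃ C : ℝ, 1 ≤ C ∧ ∀ u A B : ℕ, 1 ≤ u → 1 ≤ A → 1 ≤ B →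
      (∀ ℓ : ℕ, ℓ.Prime → ℓ ∣ A → ℓ ∈ S) → (∀ ℓ : ℕ, ℓ.Prime → ℓ ∣ B → ℓ ∈ T) →
      ∀ c1 : ℝ, 0 < c1 → c1 ≤ 1 → c1 ≤ (u * A : ℝ) / B →
      RM ((u * A : ℝ) / B) (c1 / (C * u * ((A : ℝ) * B) ^ ε)) ((B : ℝ) / u) := by
  obtain ⟨C0, hC0, hR⟩ := Pool.Agent.TH930.GH.ridout_S S T hS hT hST hε
  refine ⟨max C0 1, le_max_right _ _, ?_⟩
  intro u A B hu hA hB hAS hBT c1 hc1 hc11 hρ q hq hqQ p
  set C := max C0 1 with hC
  have hC1 : 1 ≤ C := le_max_right _ _
  have huR : (1 : ℝ) ≤ u := by exact_mod_cast hu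
  have hAR : (1 : ℝ) ≤ A := by exact_mod_cast hA
  have hBR : (1 : ℝ) ≤ B := by exact_mod_cast hB
  have hqR : (1 : ℝ) ≤ q := by exact_mod_cast hq
  have hB0 : (0 : ℝ) < B := by linarith
  have hABe : (1 : ℝ) ≤ ((A : ℝ) * B) ^ ε := Real.one_le_rpow (by nlinarith) hε.le
  have hden : 1 ≤ C * u * ((A : ℝ) * B) ^ ε := by
    have h1 : 1 ≤ C * u := by nlinarith
    nlinarith
  have hden0 : 0 < C * u * ((A : ℝ) * B) ^ ε := by linarith
  have hquB : q * u < B := by
    rw [lt_div_iff₀ (by linarith)] at hqQ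
    exact_mod_cast hqQ
  set X : ℤ := (q : ℤ) * u * A with hX
  set D : ℤ := p * B - X with hD
  have hXpos : 0 < X := by rw [hX]; positivity
  have hDne : D ≠ 0 := by
    intro h
    have h1 : (q : ℤ) * u * A = p * B := by rw [← hX]; linarith
    have h2 : (B : ℤ) ∣ (q : ℤ) * u * A := ⟨p, by rw [h1]; ring⟩
    have h3 : B ∣ q * u * A := by exact_mod_cast h2
    have hcop : Nat.Coprime B A := by
      rw [Nat.coprime_iff_isRelPrime]
      intro d hd1 hd2
      by_contra hd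
      rw [Nat.isUnit_iff] at hd
      obtain ⟨ℓ, hℓ, hℓd⟩ := Nat.exists_prime_and_dvd hd
      exact Finset.disjoint_left.1 hST (hAS ℓ hℓ (hℓd.trans hd2)) (hBT ℓ hℓ (hℓd.trans hd1))
    have h4 : B ∣ q * u := hcop.dvd_of_dvd_mul_right h3
    have h5 := Nat.le_of_dvd (by positivity) h4
    omega
  have hval : (B : ℝ) * |(q : ℝ) * ((u * A : ℝ) / B) - p| = |(D : ℝ)| := by
    rw [← abs_of_pos hB0, ← abs_mul, abs_of_pos hB0, ← abs_neg]
    congr 1
    rw [hD, hX]
    push_cast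
    field_simp
    ring
  rcases lt_or_ge |D| |X| with h | h
  · have h1 := hR (A : ℤ) (B : ℤ) (by omega) (by omega)
      (fun ℓ hℓ hd => hAS ℓ hℓ (by exact_mod_cast hd))
      (fun ℓ hℓ hd => hBT ℓ hℓ (by exact_mod_cast hd)) X D hXpos.ne' hDne h
      ⟨q * u, by rw [hX]; ring⟩ ⟨p, by rw [hD]; ring⟩
    have hXR : |(X : ℝ)| = (q : ℝ) * u * A := by
      rw [hX]; push_cast; rw [abs_of_pos (by positivity)]
    rw [hXR, Int.cast_natCast, Int.cast_natCast, abs_of_pos (by linarith : (0 : ℝ) < A),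
      abs_of_pos hB0, ← hval, Real.rpow_add (by positivity), Real.rpow_one] at h1
    have h2 : ((q : ℝ) * u * A) ^ ε ≤ ((A : ℝ) * B) ^ ε := by
      apply Real.rpow_le_rpow (by positivity) _ hε.le
      have h3 : (q : ℝ) * u ≤ B := by exact_mod_cast hquB.le
      nlinarith
    set Y : ℝ := |(q : ℝ) * ((u * A : ℝ) / B) - p| with hY
    have hY0 : 0 ≤ Y := abs_nonneg _
    have h3 : (A : ℝ) * B * 1 ≤ (A : ℝ) * B * (C * (Y * (q * u * ((A : ℝ) * B) ^ ε))) := by
      calc (A : ℝ) * B * 1 ≤ C0 * (B * Y) * ((q * u * A) * ((q : ℝ) * u * A) ^ ε) := by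
            rw [mul_one]; exact h1
        _ ≤ C * (B * Y) * ((q * u * A) * ((A : ℝ) * B) ^ ε) := by
            apply mul_le_mul
            · apply mul_le_mul_of_nonneg_right (le_max_left _ _) (by positivity)
            · exact mul_le_mul_of_nonneg_left h2 (by positivity)
            · positivity
            · positivity
        _ = _ := by ring
    have h4 := le_of_mul_le_mul_left h3 (by positivity)
    rw [div_le_iff₀ hden0]
    calc c1 ≤ 1 := hc11
      _ ≤ _ := h4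
      _ = _ := by ring
  · have h1 : (X : ℝ) ≤ |(D : ℝ)| := by
      have h2 : X ≤ |D| := (le_abs_self X).trans h
      exact_mod_cast h2
    rw [← hval] at h1
    set Y : ℝ := |(q : ℝ) * ((u * A : ℝ) / B) - p| with hY
    have hY0 : 0 ≤ Y := abs_nonneg _
    have h2 : (q : ℝ) * ((u * A : ℝ) / B) ≤ Y := by
      rw [hX] at h1
      push_cast at h1
      rw [← mul_div_assoc, div_le_iff₀ hB0]
      linarith
    have h3 : c1 ≤ Y := by
      have : 0 ≤ (u * A : ℝ) / B := by positivity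
      nlinarith
    calc c1 / (C * u * ((A : ℝ) * B) ^ ε) ≤ c1 := div_le_self hc1.le hden
      _ ≤ Y := h3
      _ ≤ q * Y := by nlinarith

/-- the error term is small -/
theorem err_small (η : ℝ) (hη : 0 < η) : ∃ C : ℝ, 0 ≤ C ∧ ∀ m : ℕ, err m ≤ η * m + C := by
  refine ⟨|(3 * η + (-1 - 2 * Real.log η) / η) / 2|, abs_nonneg _, fun m => ?_⟩
  have hm0 : (0 : ℝ) ≤ m := Nat.cast_nonneg m
  have hl0 : 0 ≤ Real.log ((m : ℝ) + 2) := Real.log_nonneg (by linarith)
  have h1 : err m ≤ (η * (m + 1) + Real.log ((m : ℝ) + 2) / η) / 2 := by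
    unfold err
    apply Real.sqrt_le_iff.2
    constructor
    · positivity
    · have h2 : 0 ≤ (η * (m + 1) - Real.log ((m : ℝ) + 2) / η) ^ 2 := sq_nonneg _
      have h3 : (η * (m + 1)) * (Real.log ((m : ℝ) + 2) / η) = ((m : ℝ) + 1) * Real.log ((m : ℝ) + 2) := by
        field_simp
      nlinarith
  have h2 : Real.log ((m : ℝ) + 2) ≤ η ^ 2 * (m + 2) - 1 - 2 * Real.log η := by
    have h3 := Real.log_le_sub_one_of_pos (show 0 < η ^ 2 * ((m : ℝ) + 2) by positivity)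
    rw [Real.log_mul (by positivity) (by positivity), Real.log_pow] at h3
    push_cast at h3
    linarith
  have h3 : Real.log ((m : ℝ) + 2) / η ≤ η * (m + 2) + (-1 - 2 * Real.log η) / η := by
    rw [div_le_iff₀ hη, add_mul, div_mul_cancel₀ _ hη.ne']
    linarith
  have h4 := le_abs_self ((3 * η + (-1 - 2 * Real.log η) / η) / 2)
  linarith

lemma two_sum (k : ℕ) : ∑ i ∈ range (k + 1), (2 : ℝ) ^ (i + 1) = 2 ^ (k + 2) - 2 := by
  induction k with
  | zero => norm_num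
  | succ k ih => rw [sum_range_succ, ih]; ring

/-- **The general theorem on words of digits.** -/
theorem words (S T : Finset ℕ) (hS : ∀ ℓ ∈ S, ℓ.Prime) (hT : ∀ ℓ ∈ T, ℓ.Prime)
    (hST : Disjoint S T) (k : ℕ) (ε : ℝ) (hε : 0 < ε) :
    ∃ C : ℝ, 0 < C ∧ ∀ u A B : ℕ, 1 ≤ u → 1 ≤ A → 1 ≤ B →
      (∀ ℓ : ℕ, ℓ.Prime → ℓ ∣ A → ℓ ∈ S) → (∀ ℓ : ℕ, ℓ.Prime → ℓ ∣ B → ℓ ∈ T) →
      ∀ b : ℕ, 2 ≤ b → ∀ L m : ℕ, b ^ L ≤ B → B ≤ b * (u * A) →
      ∀ s : ℕ → ℤ, (∀ i < L, |s i| ≤ b) →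
      ((range L).filter (fun i => s i ≠ dig ((u * A : ℝ) / B) b (i + 1))).card ≤ k →
      ∀ c : ℕ → ℚ, (∃ j ≤ m, c j ≠ 0) →
      (∀ i, i + m < L → ∑ j ∈ range (m + 1), c j * (s (i + j) : ℚ) = 0) →
      (L : ℝ) ≤ (2 ^ (k + 2) - 2) * (m + 2 * (Real.log u / Real.log b)) +
        ε * (Real.log ((A : ℝ) * B) / Real.log b) + C := by
  obtain ⟨sk, hsk⟩ : ∃ sk : ℝ, sk = 2 ^ (k + 2) - 2 := ⟨_, rfl⟩
  have hsk1 : 1 ≤ sk := by
    rw [hsk]
    have : (2 : ℝ) ^ 2 ≤ 2 ^ (k + 2) := pow_le_pow_right₀ (by norm_num) (by omega)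
    linarith
  obtain ⟨ε1, hε1⟩ : ∃ ε1 : ℝ, ε1 = ε / (4 * sk) := ⟨_, rfl⟩
  have hε10 : 0 < ε1 := by rw [hε1]; positivity
  obtain ⟨C1, hC1, hmeas⟩ := meas_S S T hS hT hST ε1 hε10
  obtain ⟨η, hη⟩ : ∃ η : ℝ, η = ε / (30 * sk) := ⟨_, rfl⟩
  have hη0 : 0 < η := by rw [hη]; positivity
  obtain ⟨C2, hC20, herr⟩ := err_small η hη0
  have hlC1 : 0 ≤ Real.log C1 := Real.log_nonneg hC1
  refine ⟨sk * (15 * C2 + 4 + 4 * Real.log C1), by positivity, ?_⟩
  intro u A B hu hA hB hAS hBT b hb L m hLB hBA s hs hcard c ⟨j0, hj0, hcj0⟩ hc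
  rw [← hsk]
  have huR : (1 : ℝ) ≤ u := by exact_mod_cast hu
  have hAR : (1 : ℝ) ≤ A := by exact_mod_cast hA
  have hBR : (1 : ℝ) ≤ B := by exact_mod_cast hB
  have hB0 : (0 : ℝ) < B := by linarith
  have hbR : (2 : ℝ) ≤ b := by exact_mod_cast hb
  have hb0 : (0 : ℝ) < b := by linarith
  have hlb : 0 < Real.log b := Real.log_pos (by linarith)
  have hlb69 : 0.69 ≤ Real.log b := by
    have h1 := Real.log_two_gt_d9
    have h2 := Real.log_le_log (by norm_num : (0 : ℝ) < 2) hbR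
    linarith
  have hlu : 0 ≤ Real.log u := Real.log_nonneg huR
  have hlAB : 0 ≤ Real.log ((A : ℝ) * B) := Real.log_nonneg (by nlinarith)
  have hU0 : 0 ≤ Real.log u / Real.log b := by positivity
  have hV0 : 0 ≤ Real.log ((A : ℝ) * B) / Real.log b := by positivity
  have hm0 : (0 : ℝ) ≤ m := Nat.cast_nonneg m
  obtain ⟨V, hV⟩ : ∃ V : ℝ, V = Real.log ((A : ℝ) * B) / Real.log b := ⟨_, rfl⟩
  obtain ⟨U, hU⟩ : ∃ U : ℝ, U = Real.log u / Real.log b := ⟨_, rfl⟩
  rw [← hV] at hV0 ⊢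
  rw [← hU] at hU0 ⊢
  have hrest : 0 ≤ sk * (2 * U) + ε * V + sk * (15 * C2 + 4 + 4 * Real.log C1) := by positivity
  rcases le_or_gt L m with hLm | hLm
  · have h1 : (L : ℝ) ≤ m := by exact_mod_cast hLm
    have h2 : (m : ℝ) ≤ sk * m := by nlinarith
    linarith
  -- the order of the relation
  have hex : ∃ m' ≤ m, c m' ≠ 0 ∧ ∀ j ≤ m, c j ≠ 0 → j ≤ m' := by
    obtain ⟨m', h1, h2⟩ := Finset.exists_max_image ((range (m + 1)).filter (fun j => c j ≠ 0)) id
      ⟨j0, by rw [mem_filter, mem_range]; exact ⟨by omega, hcj0⟩⟩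
    rw [mem_filter, mem_range] at h1
    exact ⟨m', by omega, h1.2, fun j hj hcj => h2 j (by rw [mem_filter, mem_range]; exact ⟨by omega, hcj⟩)⟩
  obtain ⟨m', hm', hcm', hmax⟩ := hex
  obtain ⟨L', hL'⟩ : ∃ L', L' = L - (m - m') := ⟨_, rfl⟩
  have hrec : ∀ i, i + m' < L' → (s (i + m') : ℚ) =
      ∑ l ∈ range m', (-(c l / c m')) * (s (i + l) : ℚ) := by
    intro i hi
    have h1 := hc i (by omega)
    have h2 : ∑ j ∈ range (m + 1), c j * (s (i + j) : ℚ) =
        ∑ j ∈ range (m' + 1), c j * (s (i + j) : ℚ) := by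
      symm
      apply Finset.sum_subset (by intro x hx; rw [mem_range] at hx ⊢; omega)
      intro j hj1 hj2
      rw [mem_range] at hj1 hj2
      have : c j = 0 := by
        by_contra h
        have := hmax j (by omega) h
        omega
      rw [this, zero_mul]
    rw [h2, sum_range_succ] at h1
    have h3 : ∑ l ∈ range m', (-(c l / c m')) * (s (i + l) : ℚ) =
        -(∑ l ∈ range m', c l * (s (i + l) : ℚ)) / c m' := by
      rw [neg_div, Finset.sum_div, ← Finset.sum_neg_distrib]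
      refine sum_congr rfl fun l _ => ?_
      field_simp
    rw [h3, eq_div_iff hcm']
    linarith
  have hL'L : L' ≤ L := by omega
  have hρ : (1 : ℝ) / b ≤ (u * A : ℝ) / B := by
    rw [div_le_div_iff₀ hb0 hB0]
    have : (B : ℝ) ≤ b * (u * A) := by exact_mod_cast hBA
    linarith
  have hb1 : (1 : ℝ) / b ≤ 1 := by rw [div_le_one hb0]; linarith
  obtain ⟨c0, hc0⟩ : ∃ c0 : ℝ, c0 = (1 / b : ℝ) / (C1 * u * ((A : ℝ) * B) ^ ε1) := ⟨_, rfl⟩
  have hABe : (1 : ℝ) ≤ ((A : ℝ) * B) ^ ε1 := Real.one_le_rpow (by nlinarith) hε10.le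
  have hC10 : 0 < C1 := by linarith
  have hc00 : 0 < c0 := by rw [hc0]; positivity
  have hM := hmeas u A B hu hA hB hAS hBT (1 / b) (by positivity) hb1 hρ
  rw [← hc0] at hM
  have hQ : (b : ℝ) ^ L' * c0 ≤ (B : ℝ) / u := by
    have h1 : (b : ℝ) ^ L' ≤ B := by
      calc (b : ℝ) ^ L' ≤ (b : ℝ) ^ L := pow_le_pow_right₀ (by linarith) hL'L
        _ ≤ B := by exact_mod_cast hLB
    have h2 : c0 ≤ 1 / u := by
      rw [hc0, div_le_div_iff₀ (by positivity) (by linarith)]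
      have h3 : (1 / b : ℝ) * u ≤ 1 * u := mul_le_mul_of_nonneg_right hb1 (by linarith)
      have h4 : (u : ℝ) ≤ C1 * u * ((A : ℝ) * B) ^ ε1 := by
        have h5 : (u : ℝ) ≤ C1 * u := by nlinarith
        have h6 : 0 ≤ C1 * u := by positivity
        nlinarith
      linarith
    calc (b : ℝ) ^ L' * c0 ≤ B * (1 / u) := mul_le_mul h1 h2 hc00.le hB0.le
      _ = B / u := by ring
  have hfin := gen2 ((u * A : ℝ) / B) c0 ((B : ℝ) / u) hc00 hM b hb L' m' k hQ s
    (fun i hi => hs i (by omega))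
    ((range L').filter (fun i => s i ≠ dig ((u * A : ℝ) / B) b (i + 1)))
    (le_trans (card_le_card (by
      intro i hi
      rw [mem_filter, mem_range] at hi ⊢
      exact ⟨by omega, hi.2⟩)) hcard)
    (fun i hi hiE => by
      by_contra h
      exact hiE (by rw [mem_filter, mem_range]; exact ⟨hi, h⟩))
    (fun l => -(c l / c m')) hrec
  rw [two_sum, ← hsk] at hfin
  have hlogc0 : |Real.log c0| / Real.log b ≤ 1 + 2 * Real.log C1 + U + ε1 * V := by
    have h1 : Real.log c0 = -(Real.log b + Real.log C1 + Real.log u +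
        ε1 * Real.log ((A : ℝ) * B)) := by
      rw [hc0, Real.log_div (by positivity) (by positivity), Real.log_div one_ne_zero hb0.ne',
        Real.log_one, Real.log_mul (by positivity) (by positivity),
        Real.log_mul hC10.ne' (by positivity), Real.log_rpow (by nlinarith)]
      ring
    have h2 : 0 ≤ Real.log b + Real.log C1 + Real.log u + ε1 * Real.log ((A : ℝ) * B) := by
      positivity
    rw [h1, abs_neg, abs_of_nonneg h2, div_le_iff₀ hlb, hU, hV]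
    have h3 : Real.log C1 ≤ 2 * Real.log C1 * Real.log b := by nlinarith
    have e1 : (1 + 2 * Real.log C1 + Real.log u / Real.log b +
        ε1 * (Real.log ((A : ℝ) * B) / Real.log b)) * Real.log b =
        Real.log b + 2 * Real.log C1 * Real.log b + Real.log u +
          ε1 * Real.log ((A : ℝ) * B) := by
      field_simp
    rw [e1]
    linarith
  have hLV : (L : ℝ) ≤ V := by
    rw [hV, le_div_iff₀ hlb]
    have h1 : (b : ℝ) ^ L ≤ A * B := by
      calc (b : ℝ) ^ L ≤ B := by exact_mod_cast hLB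
        _ ≤ A * B := by nlinarith
    have h2 := Real.log_le_log (by positivity) h1
    rw [Real.log_pow] at h2
    exact h2
  have herrm : err m' ≤ η * V + C2 := by
    have h1 := herr m'
    have h2 : (m' : ℝ) ≤ V := by
      have : (m' : ℝ) ≤ L := by exact_mod_cast (by omega : m' ≤ L)
      linarith
    have h3 := mul_le_mul_of_nonneg_left h2 hη0.le
    linarith
  have e2 : sk * (15 * (η * V)) = ε / 2 * V := by
    rw [hη]; field_simp; ring
  have e3 : sk * (2 * (ε1 * V)) = ε / 2 * V := by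
    rw [hε1]; field_simp; ring
  have hLL' : (L : ℝ) = L' + (m - m') := by
    have : L = L' + (m - m') := by omega
    rw [this]
    push_cast
    rw [Nat.cast_sub hm']
  have hmm : (m' : ℝ) ≤ m := by exact_mod_cast hm'
  have h6 : sk * (m' + 15 * err m' + 1 + 2 * (|Real.log c0| / Real.log b)) ≤
      sk * (m' + 15 * (η * V + C2) + 1 + 2 * (1 + 2 * Real.log C1 + U + ε1 * V)) :=
    mul_le_mul_of_nonneg_left (by linarith) (by linarith)
  have h7 : ((m : ℝ) - m') ≤ sk * (m - m') := by nlinarith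
  have h8 : sk * (m' + 15 * (η * V + C2) + 1 + 2 * (1 + 2 * Real.log C1 + U + ε1 * V)) +
      sk * (m - m') = sk * (m + 2 * U) + sk * (15 * (η * V)) + sk * (2 * (ε1 * V)) +
      sk * (15 * C2 + 3 + 4 * Real.log C1) := by ring
  have h9 : sk * (15 * C2 + 3 + 4 * Real.log C1) ≤ sk * (15 * C2 + 4 + 4 * Real.log C1) :=
    mul_le_mul_of_nonneg_left (by linarith) (by linarith)
  rw [e2, e3] at h8
  linarith

end Pool.Agent.Y928.PW
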